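import Mathlib

set_option autoImplicit false

/-!
# Condition (C) and numbers with a large prime power factor
-/

open Polynomial

namespace Pool.Agent.Results.MP_420c7c_nt.LargePrimePowerFactor

/-- condition (C): `(1+X)^n ≡ 1+X^n` modulo `n` and `X^r - 1` for all `1 ≤ r ≤ (log₂ n)²` -/
def CondC (n : ℕ) : Prop :=
  ∀ r : ℕ, 1 ≤ r → (r : ℝ) ≤ (Real.logb 2 n) ^ 2 →
    ((X : (ZMod n)[X]) ^ r - 1) ∣ (1 + X) ^ n - (1 + X ^ n)

/-- removal of a substitution `X ↦ X^P`, `P` prime to `r` -/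
theorem dvd_of_expand {R : Type*} [CommRing R] (g : R[X]) (r P : ℕ) (hr : 1 ≤ r) (hP1 : 1 ≤ P)
    (hP : Nat.Coprime P r) (h : ((X : R[X]) ^ r - 1) ∣ g.comp (X ^ P)) :
    ((X : R[X]) ^ r - 1) ∣ g := by
  obtain ⟨s, k, hsk⟩ : ∃ s k : ℕ, P * s = 1 + r * k := by
    rcases Nat.lt_or_ge 1 r with hr2 | hr2
    · obtain ⟨s, hs⟩ := Nat.exists_mul_mod_eq_one_of_coprime hP hr2
      refine ⟨s, P * s / r, ?_⟩
      have := Nat.div_add_mod (P * s) r
      omega
    · have hr1 : r = 1 := by omega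
      subst hr1
      exact ⟨1, P - 1, by omega⟩
  -- substitute `X^s`
  have h1 : ((X : R[X]) ^ r - 1).comp (X ^ s) ∣ (g.comp (X ^ P)).comp (X ^ s) := by
    obtain ⟨q, hq⟩ := h
    rw [hq, mul_comp]
    exact dvd_mul_right _ _
  have h2 : ((X : R[X]) ^ r - 1) ∣ ((X : R[X]) ^ r - 1).comp (X ^ s) := by
    have : ((X : R[X]) ^ r - 1).comp (X ^ s) = (X ^ r) ^ s - 1 ^ s := by
      simp [← pow_mul, mul_comm]
    rw [this]
    exact sub_dvd_pow_sub_pow _ _ s
  have h3 : (g.comp (X ^ P)).comp (X ^ s) = g.comp (X ^ (1 + r * k)) := by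
    rw [comp_assoc]
    congr 1
    simp [← pow_mul, ← hsk, mul_comm]
  have h4 : ((X : R[X]) ^ r - 1) ∣ (X : R[X]) ^ (1 + r * k) - X := by
    have : (X : R[X]) ^ (1 + r * k) - X = X * ((X ^ r) ^ k - 1 ^ k) := by
      rw [pow_add, pow_mul]; ring
    rw [this]
    exact Dvd.dvd.mul_left (sub_dvd_pow_sub_pow _ _ k) _
  have h5 : ((X : R[X]) ^ r - 1) ∣ g.comp (X ^ (1 + r * k)) - g := by
    have h6 : (X : R[X]) ^ (1 + r * k) - X ∣ g.comp (X ^ (1 + r * k)) - g.comp X := by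
      have := sub_dvd_eval_sub ((X : R[X]) ^ (1 + r * k)) X (g.map C)
      rw [eval_map, eval_map] at this
      exact this
    rw [comp_X] at h6
    exact h4.trans h6
  rw [← h3] at h5
  have h7 := (h2.trans h1)
  have : g = (g.comp (X ^ P)).comp (X ^ s) - ((g.comp (X ^ P)).comp (X ^ s) - g) := by ring
  rw [this]
  exact dvd_sub h7 h5

theorem cofactor_dvd (p e m r : ℕ) (hp : p.Prime) (hr1 : 1 ≤ r) (hpr : ¬ p ∣ r)
    (h : ((X : (ZMod p)[X]) ^ r - 1) ∣ (1 + X) ^ (p ^ e * m) - (1 + X ^ (p ^ e * m))) :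
    ((X : (ZMod p)[X]) ^ r - 1) ∣ (1 + X) ^ m - (1 + X ^ m) := by
  have : Fact p.Prime := ⟨hp⟩
  have h1 : (1 + X : (ZMod p)[X]) ^ (p ^ e * m) - (1 + X ^ (p ^ e * m)) =
      ((1 + X : (ZMod p)[X]) ^ m - (1 + X ^ m)).comp (X ^ (p ^ e)) := by
    rw [pow_mul, add_pow_char_pow, one_pow]
    simp [pow_mul]
  rw [h1] at h
  have hcop : Nat.Coprime (p ^ e) r := Nat.Coprime.pow_left e ((Nat.Prime.coprime_iff_not_dvd hp).2 hpr)
  exact dvd_of_expand _ r (p ^ e) hr1 (Nat.pos_of_ne_zero (pow_ne_zero e hp.ne_zero)) hcop h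

theorem gdeg (p m : ℕ) (hm : 2 ≤ m) [Fact p.Prime] :
    ((1 + X : (ZMod p)[X]) ^ m - (1 + X ^ m)).natDegree < m := by
  have h1 : (1 + X : (ZMod p)[X]) ^ m - (1 + X ^ m) = ((1 + X) ^ m - X ^ m) - 1 := by ring
  have hmonic : (1 + X : (ZMod p)[X]).Monic := by
    rw [add_comm]; exact monic_X_add_C 1
  have hd1 : (1 + X : (ZMod p)[X]).natDegree = 1 := by
    rw [add_comm]; exact natDegree_X_add_C 1
  have h2 : ((1 + X : (ZMod p)[X]) ^ m - X ^ m).degree < ((1 + X : (ZMod p)[X]) ^ m).degree := by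
    refine degree_sub_lt ?_ (hmonic.pow m).ne_zero ?_
    · rw [degree_eq_natDegree (hmonic.pow m).ne_zero, hmonic.natDegree_pow, hd1, degree_X_pow]
      simp
    · rw [(hmonic.pow m).leadingCoeff, (monic_X_pow m).leadingCoeff]
  rw [degree_eq_natDegree (hmonic.pow m).ne_zero, hmonic.natDegree_pow, hd1, mul_one] at h2
  rw [h1]
  have h3 : (((1 + X : (ZMod p)[X]) ^ m - X ^ m) - 1).degree < (m : WithBot ℕ) := by
    refine lt_of_le_of_lt (degree_sub_le _ _) (max_lt h2 ?_)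
    rw [degree_one]
    exact_mod_cast (by omega : 0 < m)
  by_cases hz : ((1 + X : (ZMod p)[X]) ^ m - X ^ m) - 1 = 0
  · rw [hz, natDegree_zero]
    omega
  · exact (natDegree_lt_iff_degree_lt hz).2 h3

theorem gne (p m : ℕ) (hp : p.Prime) (hm1 : 2 ≤ m) (hpm : ¬ p ∣ m) :
    (1 + X : (ZMod p)[X]) ^ m - (1 + X ^ m) ≠ 0 := by
  intro hg0
  have h4 : ((1 + X : (ZMod p)[X]) ^ m - (1 + X ^ m)).coeff 1 = (m : ZMod p) := by
    have hm2 : (1 : ℕ) ≠ m := by omega
    rw [coeff_sub, coeff_add, coeff_one_add_X_pow, coeff_X_pow, if_neg hm2]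
    simp [coeff_one]
  rw [hg0, coeff_zero] at h4
  exact hpm ((ZMod.natCast_eq_zero_iff m p).1 h4.symm)

theorem count_roots (p m L : ℕ) (hp : p.Prime) (g : (ZMod p)[X]) (hdeg : g.natDegree < m)
    (hm : m ≤ ∑ d ∈ (Finset.Icc 1 L).filter (fun d => ¬ p ∣ d), Nat.totient d)
    (h : ∀ d, 1 ≤ d → d ≤ L → ¬ p ∣ d → ((X : (ZMod p)[X]) ^ d - 1) ∣ g) : g = 0 := by
  classical
  have : Fact p.Prime := ⟨hp⟩
  set K := AlgebraicClosure (ZMod p)
  have : CharP K p := inferInstance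
  set G : K[X] := g.map (algebraMap (ZMod p) K) with hG
  have hGdeg : G.natDegree < m := by
    rw [hG, natDegree_map]; exact hdeg
  set S := (Finset.Icc 1 L).filter (fun d => ¬ p ∣ d) with hS
  have hprim : ∀ d ∈ S, (primitiveRoots d K).card = Nat.totient d := by
    intro d hd
    have hd' := Finset.mem_filter.1 hd
    have hd1 := (Finset.mem_Icc.1 hd'.1).1
    have : NeZero (d : K) := ⟨fun h => hd'.2 ((CharP.cast_eq_zero_iff K p d).1 h)⟩
    have : NeZero d := ⟨by omega⟩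
    obtain ⟨ζ, hζ⟩ := HasEnoughRootsOfUnity.exists_primitiveRoot K d
    exact hζ.card_primitiveRoots
  have hdisj : ((S : Set ℕ)).PairwiseDisjoint (fun d => primitiveRoots d K) := by
    intro a _ b _ hab
    exact IsPrimitiveRoot.disjoint hab
  by_contra hne
  have hGne : G ≠ 0 := by
    rw [hG]
    exact (Polynomial.map_ne_zero_iff (algebraMap (ZMod p) K).injective).2 hne
  have hsub : S.biUnion (fun d => primitiveRoots d K) ⊆ G.roots.toFinset := by
    intro z hz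
    obtain ⟨d, hd, hz2⟩ := Finset.mem_biUnion.1 hz
    have hd' := Finset.mem_filter.1 hd
    have hd1 := (Finset.mem_Icc.1 hd'.1)
    have hz3 := (mem_primitiveRoots (by omega)).1 hz2
    rw [Multiset.mem_toFinset, mem_roots hGne, IsRoot.def]
    have h1 := Polynomial.map_dvd (algebraMap (ZMod p) K) (h d hd1.1 hd1.2 hd'.2)
    obtain ⟨q, hq⟩ := h1
    rw [← hG] at hq
    rw [hq, eval_mul]
    simp [hz3.pow_eq_one]
  have hcard := Finset.card_le_card hsub
  rw [Finset.card_biUnion hdisj, Finset.sum_congr rfl hprim] at hcard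
  have h2 := (Multiset.toFinset_card_le G.roots).trans (card_roots' G)
  have h3 : ∑ d ∈ S, Nat.totient d ≤ G.roots.toFinset.card := hcard
  exact absurd (hm.trans (h3.trans h2)) (not_le.2 hGdeg)

theorem main (n p : ℕ) (hn : 2 ≤ n) (hC : CondC n) (hp : p.Prime) (hpn : p ∣ n)
    (hbig : n / p ^ n.factorization p ≤
      ∑ d ∈ (Finset.Icc 1 ⌊(Real.logb 2 n) ^ 2⌋₊).filter (fun d => ¬ p ∣ d), Nat.totient d) :
    n = p ^ n.factorization p := by
  have : Fact p.Prime := ⟨hp⟩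
  set e := n.factorization p with he
  set m := n / p ^ e with hmdef
  have hn0 : n ≠ 0 := by omega
  have hmul : p ^ e * m = n := Nat.ordProj_mul_ordCompl_eq_self n p
  have hpm : ¬ p ∣ m := Nat.not_dvd_ordCompl hp hn0
  have hm : 1 ≤ m := Nat.pos_of_ne_zero (by rintro h; rw [h, mul_zero] at hmul; omega)
  have hm1 : m = 1 := by
    by_contra hne
    have hm2 : 2 ≤ m := by omega
    refine gne p m hp hm2 hpm (count_roots p m _ hp _ (gdeg p m hm2) hbig ?_)
    intro d hd1 hd2 hpd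
    have hr3 : (d : ℝ) ≤ (Real.logb 2 n) ^ 2 :=
      (Nat.le_floor_iff (sq_nonneg _)).1 hd2
    have h1 := hC d hd1 hr3
    have h2 := Polynomial.map_dvd (ZMod.castHom hpn (ZMod p)) h1
    simp only [Polynomial.map_sub, Polynomial.map_add, Polynomial.map_pow, Polynomial.map_X,
      Polynomial.map_one] at h2
    rw [← hmul] at h2
    exact cofactor_dvd p e m d hp hd1 hpd h2
  rw [hm1, mul_one] at hmul
  exact hmul.symm

theorem result (n p : ℕ) (hn : 2 ≤ n) (hC : CondC n) (hp : p.Prime) (hpn : p ∣ n)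
    (hbig : n / p ^ n.factorization p ≤
      ∑ d ∈ (Finset.Icc 1 ⌊(Real.logb 2 n) ^ 2⌋₊).filter (fun d => ¬ p ∣ d), Nat.totient d) :
    n = p ^ n.factorization p ∧ (¬ p ^ 2 ∣ n → n.Prime) := by
  have h := main n p hn hC hp hpn hbig
  refine ⟨h, fun h2 => ?_⟩
  have h3 : n.factorization p ≤ 1 := by
    by_contra h4
    apply h2
    rw [h]
    exact pow_dvd_pow p (by omega)
  have h5 : 1 ≤ n.factorization p := by
    rcases Nat.eq_zero_or_pos (n.factorization p) with h6 | h6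
    · rw [h6, pow_zero] at h
      omega
    · exact h6
  have h6 : n.factorization p = 1 := by omega
  rw [h6, pow_one] at h
  rw [h]
  exact hp

end Pool.Agent.Results.MP_420c7c_nt.LargePrimePowerFactor
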